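import Pool.Agent.Helper28.WK.M_ThmA
import Pool.Agent.Helper28.LV.M_GenA

/-!
# Central values of the newforms of every even weight `k ≥ 4` and level a power of two
-/

set_option autoImplicit false

namespace Pool.Agent.Results.MP_3c9520_nt.CentralValuesEveryWeight

open Pool.Agent.Helper14.CV (G0)
open Pool.Agent.Helper14.WK Pool.Agent.Helper28.WK Pool.Agent.Helper28.LV

/-- Let `k ≥ 4` be even, `n ≥ 0` and let `f` be a newform of weight `k`, level `2^n` (for `n = 0`: a
normalised Hecke eigenform for `SL₂(ℤ)`) and trivial character with root number `+1`. Then the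
central value `L(1/2, f)` is not zero (`LanK hk f` is the entire continuation of the `L`-series of
`f` in the analytic normalisation). -/
theorem result (k : ℤ) (hk : 0 < k) (heven : Even k) (h4 : 4 ≤ k) (n : ℕ)
    (f : CuspForm (G0 (2 ^ n)) k) (hf : IsNewformA 2 n f) (hε : RootOneK hk f) :
    Differentiable ℂ (LanK hk f) ∧
    (∀ s : ℂ, 3 / 2 < s.re →
      HasSum (fun m : ℕ => fcK f m / (m : ℂ) ^ (((k : ℂ) - 1) / 2) / (m : ℂ) ^ s)
        (LanK hk f s)) ∧
    LanK hk f (1 / 2) ≠ 0 := by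
  have ls := hKLs (2 ^ n) ⟨pow_ne_zero n two_ne_zero⟩ k hk (by omega) f
  refine ⟨ls.1, ls.2, ?_⟩
  obtain ⟨A, rfl⟩ : ∃ A : ℕ, k = 2 * A + 2 := by
    obtain ⟨r, hr⟩ := heven
    exact ⟨(r - 1).toNat, by omega⟩
  exact genAll 2 Nat.prime_two tap2 A n (by omega) ⟨pow_ne_zero n two_ne_zero⟩ hk f hf hε

end Pool.Agent.Results.MP_3c9520_nt.CentralValuesEveryWeight
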